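import Pool.Agent.H39.Newt.Stmts

/-! # Project NEWTON: module GFN, the generating function of a box -/

set_option autoImplicit false

namespace Pool.Newt

open MvPolynomial Pool.Agent.H39.MonoR Pool.Agent.H75.Mono

open Classical in
/-- the solutions of `N0 + ∑ m_s N_s = d` -/
noncomputable def GFN_S {r : ℕ} (N : Fin r → ℕ) (N0 d : ℕ) : Finset (Fin r → ℕ) :=
  (Fintype.piFinset fun _ : Fin r => Finset.range (d + 1)).filter
        (fun m => N0 + ∑ s, m s * N s = d)

theorem GFN_mem {r : ℕ} {N : Fin r → ℕ} (hN : ∀ s, 0 < N s) {N0 d : ℕ} {m : Fin r → ℕ} :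
    m ∈ GFN_S N N0 d ↔ N0 + ∑ s, m s * N s = d := by
  classical
  unfold GFN_S
  rw [Finset.mem_filter, Fintype.mem_piFinset]
  refine ⟨fun h => h.2, fun h => ⟨fun s => ?_, h⟩⟩
  rw [Finset.mem_range]
  have h1 : m s * N s ≤ ∑ s, m s * N s :=
    Finset.single_le_sum (f := fun s => m s * N s) (fun _ _ => Nat.zero_le _) (Finset.mem_univ s)
  have h2 : m s ≤ m s * N s := Nat.le_mul_of_pos_right _ (hN s)
  omega

/-- the series of a box -/
noncomputable def GFN_F {R : Type 1} [CommRing R] (y : R) {r : ℕ} (n N : Fin r → ℕ)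
    (n0 N0 : ℕ) : PowerSeries R :=
  PowerSeries.mk fun d => ∑ m ∈ GFN_S N N0 d, y ^ (n0 + ∑ s, m s * n s)

theorem GFN_step {R : Type 1} [CommRing R] (y : R) {r : ℕ} (n N : Fin (r + 1) → ℕ)
    (n0 N0 : ℕ) (hN : ∀ s, 0 < N s) :
    (1 - PowerSeries.C (y ^ n 0) * PowerSeries.X ^ N 0) * GFN_F y n N n0 N0 =
      GFN_F y (fun s => n s.succ) (fun s => N s.succ) n0 N0 := by
  ext d
  rw [sub_mul, one_mul, map_sub, mul_assoc, PowerSeries.coeff_C_mul, PowerSeries.coeff_X_pow_mul']
  unfold GFN_F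
  rw [PowerSeries.coeff_mk, PowerSeries.coeff_mk, PowerSeries.coeff_mk, sub_eq_iff_eq_add]
  rw [← Finset.sum_filter_add_sum_filter_not (GFN_S N N0 d) (fun m => m 0 = 0)]
  congr 1
  · refine Finset.sum_nbij' (fun m => Fin.tail m) (fun m => Fin.cons 0 m) ?_ ?_ ?_ ?_ ?_
    · intro m hm
      rw [Finset.mem_filter, GFN_mem hN, Fin.sum_univ_succ] at hm
      rw [GFN_mem (fun s => hN s.succ)]
      obtain ⟨h1, h2⟩ := hm
      rw [h2, zero_mul, zero_add] at h1
      exact h1
    · intro m hm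
      rw [GFN_mem (fun s => hN s.succ)] at hm
      rw [Finset.mem_filter, GFN_mem hN, Fin.sum_univ_succ]
      simpa using hm
    · intro m hm
      rw [Finset.mem_filter] at hm
      show Fin.cons 0 (Fin.tail m) = m
      rw [← hm.2, Fin.cons_self_tail]
    · intro m _
      exact Fin.tail_cons _ _
    · intro m hm
      rw [Finset.mem_filter] at hm
      rw [Fin.sum_univ_succ, hm.2, zero_mul, zero_add]
      rfl
  · split_ifs with hd
    · rw [Finset.mul_sum]
      refine Finset.sum_nbij' (fun m => Fin.cons (m 0 - 1) (Fin.tail m))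
        (fun m => Fin.cons (m 0 + 1) (Fin.tail m)) ?_ ?_ ?_ ?_ ?_
      · intro m hm
        rw [Finset.mem_filter, GFN_mem hN, Fin.sum_univ_succ] at hm
        rw [GFN_mem hN, Fin.sum_univ_succ]
        obtain ⟨h1, h2⟩ := hm
        obtain ⟨q, hq⟩ := Nat.exists_eq_succ_of_ne_zero h2
        simp only [Fin.cons_zero, Fin.cons_succ]
        rw [hq, Nat.succ_mul] at h1
        rw [hq, Nat.succ_sub_one]
        show N0 + (q * N 0 + ∑ i : Fin r, m i.succ * N i.succ) = d - N 0
        omega
      · intro m hm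
        rw [GFN_mem hN, Fin.sum_univ_succ] at hm
        rw [Finset.mem_filter, GFN_mem hN, Fin.sum_univ_succ]
        simp only [Fin.cons_zero, Fin.cons_succ]
        refine ⟨?_, Nat.succ_ne_zero _⟩
        rw [add_mul, one_mul]
        show N0 + (m 0 * N 0 + N 0 + ∑ i : Fin r, m i.succ * N i.succ) = d
        omega
      · intro m hm
        rw [Finset.mem_filter] at hm
        obtain ⟨q, hq⟩ := Nat.exists_eq_succ_of_ne_zero hm.2
        show Fin.cons ((Fin.cons (m 0 - 1) (Fin.tail m) : Fin (r + 1) → ℕ) 0 + 1)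
          (Fin.tail (Fin.cons (m 0 - 1) (Fin.tail m) : Fin (r + 1) → ℕ)) = m
        have h1 : m 0 - 1 + 1 = m 0 := by omega
        rw [Fin.cons_zero, Fin.tail_cons, h1, Fin.cons_self_tail]
      · intro m _
        show Fin.cons ((Fin.cons (m 0 + 1) (Fin.tail m) : Fin (r + 1) → ℕ) 0 - 1)
          (Fin.tail (Fin.cons (m 0 + 1) (Fin.tail m) : Fin (r + 1) → ℕ)) = m
        rw [Fin.cons_zero, Fin.tail_cons, Nat.add_sub_cancel, Fin.cons_self_tail]
      · intro m hm
        rw [Finset.mem_filter] at hm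
        obtain ⟨q, hq⟩ := Nat.exists_eq_succ_of_ne_zero hm.2
        rw [← pow_add, Fin.sum_univ_succ, Fin.sum_univ_succ]
        simp only [Fin.cons_zero, Fin.cons_succ]
        congr 1
        rw [hq, Nat.succ_sub_one, Nat.succ_mul]
        show n0 + (q * n 0 + n 0 + ∑ i : Fin r, m i.succ * n i.succ) =
          n 0 + (n0 + (q * n 0 + ∑ i : Fin r, m i.succ * n i.succ))
        omega
    · rw [mul_zero]
      refine Finset.sum_eq_zero fun m hm => ?_
      exfalso
      rw [Finset.mem_filter, GFN_mem hN, Fin.sum_univ_succ] at hm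
      obtain ⟨h1, h2⟩ := hm
      have h3 : N 0 ≤ m 0 * N 0 := Nat.le_mul_of_pos_left _ (Nat.pos_of_ne_zero h2)
      omega

theorem GFN_prod {R : Type 1} [CommRing R] (y : R) (n0 N0 : ℕ) :
    ∀ {r : ℕ} (n N : Fin r → ℕ), (∀ s, 0 < N s) →
      (∏ s, (1 - PowerSeries.C (y ^ n s) * PowerSeries.X ^ N s)) * GFN_F y n N n0 N0 =
        PowerSeries.C (y ^ n0) * PowerSeries.X ^ N0 := by
  intro r
  induction r with
  | zero =>
    intro n N hN
    rw [Fin.prod_univ_zero, one_mul]
    ext d
    unfold GFN_F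
    rw [PowerSeries.coeff_mk, PowerSeries.coeff_C_mul, PowerSeries.coeff_X_pow]
    by_cases hd : d = N0
    · rw [if_pos hd, mul_one]
      have : GFN_S N N0 d = {default} := by
        ext m
        rw [GFN_mem hN, Finset.mem_singleton]
        constructor
        · intro _
          exact Subsingleton.elim _ _
        · intro _
          simp [hd]
      rw [this, Finset.sum_singleton]
      simp
    · rw [if_neg hd, mul_zero]
      refine Finset.sum_eq_zero fun m hm => ?_
      exfalso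
      rw [GFN_mem hN] at hm
      simp only [Finset.univ_eq_empty, Finset.sum_empty, add_zero] at hm
      exact hd hm.symm
  | succ r ih =>
    intro n N hN
    rw [Fin.prod_univ_succ, mul_comm (1 - PowerSeries.C (y ^ n 0) * PowerSeries.X ^ N 0), mul_assoc,
      GFN_step y n N n0 N0 hN]
    exact ih (fun s => n s.succ) (fun s => N s.succ) (fun s => hN s.succ)

theorem GFN_pow {R : Type 1} [CommRing R] (x : Rˣ) (k : ℕ) :
    (↑(x ^ (-(k : ℤ))) : R) = (↑x⁻¹ : R) ^ k := by
  rw [zpow_neg, zpow_natCast, ← inv_pow, Units.val_pow_eq_pow_val]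

/-- GFN -/
theorem sGfn : SGfn := by
  intro R _ x r n N n0 N0 hN
  have h := GFN_prod (↑x⁻¹ : R) n0 N0 n N hN
  unfold GFN_F GFN_S at h
  simp only [den', GFN_pow]
  convert h using 5

end Pool.Newt
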